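import Pool.Agent.U289.NY.Mult

/-! Many residues at once, for bounded multiples of most members of every array of moduli. -/

set_option autoImplicit false

namespace Pool.Agent.U289.NY

open Finset Filter
open Pool.Agent.U289.KT (U ev_ge L Lab choose_one)
open Pool.Agent.U289.NX

/-- the positive integers prime to `w` -/
abbrev Cop (w : ℕ) : Type := {x : ℕ // 1 ≤ x ∧ Nat.Coprime x w}

/-- the product -/
def cmul {w : ℕ} (a b : Cop w) : Cop w := ⟨a.1 * b.1, Nat.mul_pos a.2.1 b.2.1, Nat.Coprime.mul_left a.2.2 b.2.2⟩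

/-- the product of the primes dividing `w` and not `b` -/
def co (w : ℕ) (b : ℤ) : ℕ := ∏ p ∈ w.primeFactors.filter (fun p : ℕ => ¬ (p : ℤ) ∣ b), p

theorem co_pos (w : ℕ) (b : ℤ) : 1 ≤ co w b :=
  Finset.prod_pos fun _ hp => (Nat.prime_of_mem_primeFactors (mem_filter.1 hp).1).pos

theorem dvd_co {w : ℕ} {b : ℤ} {p : ℕ} (hp : p.Prime) (h : p ∣ co w b) : p ∣ w ∧ ¬ (p : ℤ) ∣ b := by
  unfold co at h
  obtain ⟨q, hq, hpq⟩ := (Prime.dvd_finsetProd_iff (Nat.prime_iff.1 hp) _).1 h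
  rw [mem_filter] at hq
  have hqp := Nat.prime_of_mem_primeFactors hq.1
  have : p = q := (Nat.prime_dvd_prime_iff_eq hp hqp).1 hpq
  subst this
  exact ⟨Nat.dvd_of_mem_primeFactors hq.1, hq.2⟩

theorem co_dvd {w : ℕ} (hw : 1 ≤ w) {b : ℤ} {p : ℕ} (hp : p.Prime) (h : p ∣ w) (hb : ¬ (p : ℤ) ∣ b) :
    p ∣ co w b :=
  dvd_prod_of_mem _ (mem_filter.2 ⟨Nat.mem_primeFactors.2 ⟨hp, h, by omega⟩, hb⟩)

/-- the other primitive forms with coefficients composed of the prime factors of `w` -/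
def OthR (w : ℕ) (b : ℕ → ℤ) : Set (ℤ × ℤ) :=
  {g | ∃ (x : ℕ) (β : ℤ), 1 ≤ x ∧ IsCoprime (x : ℤ) β ∧ (∀ p : ℕ, p.Prime → (p : ℤ) ∣ β → p ∣ w) ∧
    (∀ e, ¬ (β = b e ∧ co w (b e) ∣ x)) ∧ g = ((x : ℤ), β)}

theorem cop_of_primes {x : ℕ} {β : ℤ} (h : ∀ p : ℕ, p.Prime → p ∣ x → ¬ (p : ℤ) ∣ β) : IsCoprime (x : ℤ) β := by
  rw [Int.isCoprime_iff_gcd_eq_one]
  by_contra hne
  obtain ⟨p, hp, hpd⟩ := Nat.exists_prime_and_dvd hne
  have h1 : p ∣ x := by
    have : (p : ℤ) ∣ (x : ℤ) := dvd_trans (by exact_mod_cast hpd) (Int.gcd_dvd_left _ _)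
    exact_mod_cast this
  exact h p hp h1 (dvd_trans (by exact_mod_cast hpd) (Int.gcd_dvd_right _ _))

/-- **residues and moduli** -/
theorem res (w : ℕ) (hw : 1 ≤ w) (b : ℕ → ℤ) (hb : ∀ e (p : ℕ), p.Prime → (p : ℤ) ∣ b e → p ∣ w)
    (y : ℕ → ℕ) (hy1 : ∀ j, 1 ≤ y j) (hyw : ∀ j, Nat.Coprime (y j) w) (hy : Function.Injective y)
    (W : ℕ → Finset ℕ) (hW : ∀ t, (W t).Nonempty) (η : ℝ) (hη : 0 < η) (Λ : ℕ → Finset (Cop w)) :
    ∃ 𝒮 : Set ℕ, (∃ᶠ t in atTop, (5 / 18 - η) * ((W t).card : ℝ) ≤ ((𝒮 ∩ (W t : Set ℕ)).ncard : ℝ)) ∧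
      ∀ I : Finset ℕ, (∀ e ∈ I, e ∈ 𝒮) → ∀ (ε : ℝ), 0 < ε → ε < 1 → ∀ (k m : ℕ → ℕ), (∀ j, 1 ≤ k j) →
      (∀ j, 1 ≤ m j) →
      ∃ C : ℕ → Finset (Cop w), ∀ (V : ℕ → ℕ → Cop w) (P : ℕ → ℕ → ℝ) (s : ℕ → ℕ), (∀ t j, 0 ≤ P t j) →
        (∀ t, ∑ j ∈ range (s t), P t j = 1) →
        ∃ (E : ℕ → Set (Cop w)) (J : ℕ → ℕ), StrictMono J ∧
          (∃ᶠ t in atTop, 1 - ε ≤ ∑ j ∈ range (s t), P t j *
            ind (∃ R ⊆ range (k j), (1 - ε) * k j ≤ R.card ∧ ∀ i ∈ R, ∀ e ∈ I, ∃ E' ⊆ C j, E'.card = m j ∧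
              ∀ c ∈ E', cmul (V j i) c ∈ E e)) ∧
          ∀ (T : Finset (Cop w)) (n : ℕ) (i : Fin n → ℕ), StrictMono i → (∀ u, n ≤ i u ∧ T ⊆ Λ (i u)) →
            GoodE (OthR w b)
              {g : Fin n → ℤ × ℤ | ∃ (e : Fin n → ℕ) (x : Fin n → Cop w),
              (∀ u, e u ∈ I ∧ x u ∈ T ∧ x u ∈ E (e u)) ∧ ∀ u, g u =
                comp (((x u).1 : ℤ), 0) (((co w (b (e u)) * y (J (i u)) : ℕ) : ℤ), b (e u))} := by
  classical
  have hval : ∀ j e (x : Cop w), comp ((x.1 : ℤ), 0) (((co w (b e) * y j : ℕ) : ℤ), b e) =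
      (((co w (b e) * y j * x.1 : ℕ) : ℤ), b e) := by
    intro j e x
    simp only [comp]
    refine Prod.ext ?_ ?_
    · simp only
      push_cast
      ring
    · simp
  have : Nonempty (Cop w) := ⟨⟨1, le_rfl, Nat.coprime_one_left w⟩⟩
  refine typed (α := Cop w) (op := cmul) (fun a b c => Subtype.ext (mul_assoc _ _ _)) ?_
    (fun x => ((x.1 : ℤ), 0)) (fun c => ?_) ?_ (fun j e => (((co w (b e) * y j : ℕ) : ℤ), b e))
    ?_ ?_ ?_ ?_ ?_ ?_ W hW η hη Λ
  · intro D K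
    refine ⟨⟨w * D.sup (fun d => d.1) + 1, by omega, ?_⟩, fun k _ h => ?_⟩
    · have : Nat.Coprime (1 + w * D.sup (fun d => d.1)) w := (Nat.coprime_add_mul_left_left 1 w _).2 (Nat.coprime_one_left w)
      rwa [add_comm] at this
    · have h1 := Finset.le_sup (f := fun d : Cop w => d.1) h
      simp only [cmul] at h1
      have h2 := k.2.1
      set N := D.sup (fun d : Cop w => d.1) with hN
      have h3 : N ≤ w * N := Nat.le_mul_of_pos_left _ hw
      have h4 : w * N + 1 ≤ (w * N + 1) * k.1 := Nat.le_mul_of_pos_right _ h2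
      omega
  · show (1 : ℤ) ≤ (c.1 : ℤ)
    exact_mod_cast c.2.1
  · intro c x f
    rw [comp_dil]
    simp only [cmul]
    push_cast
    rfl
  · rintro _ ⟨x, β, hx, hcop, -, -, rfl⟩
    exact ⟨by show (0 : ℤ) < x; exact_mod_cast hx, hcop⟩
  · rintro c _ ⟨x, β, hx, hcop, hβ, hne, rfl⟩
    refine ⟨x * c.1, β, Nat.mul_pos hx c.2.1, ?_, hβ, ?_, ?_⟩
    · push_cast
      refine IsCoprime.mul_left hcop (cop_of_primes fun p hp hpc hpβ => ?_)
      have h1 := Nat.dvd_gcd hpc (hβ p hp hpβ)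
      rw [c.2.2] at h1
      exact hp.one_lt.ne' (Nat.dvd_one.1 h1)
    · rintro e ⟨h1, h2⟩
      refine hne e ⟨h1, ?_⟩
      refine Nat.Coprime.dvd_of_dvd_mul_right ?_ h2
      refine Nat.Coprime.symm (Nat.coprime_of_dvd fun p hp hpc hpco => ?_)
      have h3 := Nat.dvd_gcd hpc (dvd_co hp hpco).1
      rw [c.2.2] at h3
      exact hp.one_lt.ne' (Nat.dvd_one.1 h3)
    · simp only [comp]
      refine Prod.ext ?_ ?_
      · push_cast
        rfl
      · simp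
  · rintro j e x ⟨x', β, -, -, -, hne, h⟩
    rw [hval] at h
    refine hne e ⟨(congrArg Prod.snd h).symm, ?_⟩
    have h1 := congrArg Prod.fst h
    simp only at h1
    have h2 : co w (b e) * y j * x.1 = x' := by exact_mod_cast h1
    rw [← h2, mul_assoc]
    exact dvd_mul_right _ _
  · intro j e x
    rw [hval]
    refine ⟨?_, ?_⟩
    · simp only
      exact_mod_cast Nat.mul_pos (Nat.mul_pos (co_pos w _) (hy1 j)) x.2.1
    · refine cop_of_primes fun p hp hpd hpb => ?_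
      have hpw := hb e p hp hpb
      rcases (Nat.Prime.dvd_mul hp).1 hpd with h | h
      · rcases (Nat.Prime.dvd_mul hp).1 h with h | h
        · exact (dvd_co hp h).2 hpb
        · have h3 := Nat.dvd_gcd h hpw
          rw [hyw j] at h3
          exact hp.one_lt.ne' (Nat.dvd_one.1 h3)
      · have h3 := Nat.dvd_gcd h hpw
        rw [x.2.2] at h3
        exact hp.one_lt.ne' (Nat.dvd_one.1 h3)
  · intro j x e x' e'
    filter_upwards [hy.nat_tendsto_atTop.eventually_gt_atTop (co w (b e) * y j * x.1)] with j' hj' h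
    rw [hval, hval] at h
    have h1 := congrArg Prod.fst h
    simp only at h1
    have h2 : co w (b e') * y j' * x'.1 = co w (b e) * y j * x.1 := by exact_mod_cast h1
    have h3 : y j' ≤ co w (b e') * y j' := Nat.le_mul_of_pos_left _ (co_pos w _)
    have h4 : co w (b e') * y j' ≤ co w (b e') * y j' * x'.1 := Nat.le_mul_of_pos_right _ x'.2.1
    omega
  · intro W'
    refine ⟨fun t => {⟨1, le_rfl, Nat.coprime_one_left w⟩}, fun pos => ⟨fun t e => ⟨1, le_rfl, Nat.coprime_one_left w⟩,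
      fun t e _ => mem_singleton_self _, fun Λ p hp => ?_⟩⟩
    have hpp := Nat.prime_iff_prime_int.1 hp
    by_cases hpw : p ∣ w
    · refine ⟨1, Filter.Eventually.of_forall fun j z _ hd => ?_⟩
      rw [hval] at hd
      simp only [mul_one] at hd
      by_cases hpb : (p : ℤ) ∣ b z.2
      · have h1 : (p : ℤ) ∣ ((co w (b z.2) * y j * (cmul (pos z.1) ⟨1, le_rfl, Nat.coprime_one_left w⟩).1 : ℕ) : ℤ) :=
          (dvd_add_left hpb).1 hd
        have h2 : p ∣ co w (b z.2) * y j * (cmul (pos z.1) ⟨1, le_rfl, Nat.coprime_one_left w⟩).1 := by exact_mod_cast h1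
        rcases (Nat.Prime.dvd_mul hp).1 h2 with h | h
        · rcases (Nat.Prime.dvd_mul hp).1 h with h | h
          · exact (dvd_co hp h).2 hpb
          · have h3 := Nat.dvd_gcd h hpw
            rw [hyw j] at h3
            exact hp.one_lt.ne' (Nat.dvd_one.1 h3)
        · have h3 := Nat.dvd_gcd h hpw
          rw [(cmul (pos z.1) ⟨1, le_rfl, Nat.coprime_one_left w⟩).2.2] at h3
          exact hp.one_lt.ne' (Nat.dvd_one.1 h3)
      · have h1 : (p : ℤ) ∣ ((co w (b z.2) * y j * (cmul (pos z.1) ⟨1, le_rfl, Nat.coprime_one_left w⟩).1 : ℕ) : ℤ) := by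
          have h2 := co_dvd hw hp hpw hpb
          exact_mod_cast (h2.mul_right _).mul_right _
        exact hpb ((dvd_add_right h1).1 hd)
    · refine ⟨0, Filter.Eventually.of_forall fun j z _ hd => ?_⟩
      rw [hval] at hd
      simp only [mul_zero, zero_add] at hd
      exact hpw (hb _ p hp hd)

end Pool.Agent.U289.NY
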