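import Pool.Agent.U289.NY.Typed
import Pool.Agent.U289.NX.Orb
import Pool.Agent.U289.NX.Tra

/-! Chains of iterates of an affine map with many types of positions in the chain, near most members of every array
of starting points. -/

set_option autoImplicit false

namespace Pool.Agent.U289.NY

open Finset Filter
open Pool.Agent.U289.KT (U ev_ge L Lab choose_one)
open Pool.Agent.U289.NX

/-- a primitive linear form has at most one zero modulo `p` -/
theorem one_class {p : ℕ} (hp : p.Prime) {A B : ℤ} (h : IsCoprime A B) :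
    ∃ ζ : Fin p, ∀ z : ℤ, (p : ℤ) ∣ A * z + B → (p : ℤ) ∣ z - ((ζ : ℕ) : ℤ) := by
  have hpp := Nat.prime_iff_prime_int.1 hp
  have hp0 : (0 : ℤ) < p := by exact_mod_cast hp.pos
  by_cases hA : (p : ℤ) ∣ A
  · refine ⟨⟨0, hp.pos⟩, fun z hz => ?_⟩
    have h1 : (p : ℤ) ∣ B := (dvd_add_right (hA.mul_right z)).1 hz
    exact absurd (h.isUnit_of_dvd' hA h1) hpp.not_isUnit
  · obtain ⟨u, v, huv⟩ := (Prime.coprime_iff_not_dvd hpp).2 hA
    have h2 : 0 ≤ (- B * v) % p := Int.emod_nonneg _ hp0.ne'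
    have h3 : (- B * v) % p < p := Int.emod_lt_of_pos _ hp0
    refine ⟨⟨((- B * v) % p).toNat, by omega⟩, fun z hz => ?_⟩
    simp only
    rw [Int.toNat_of_nonneg h2]
    have h4 : (p : ℤ) ∣ (- B * v) - (- B * v) % p := Int.dvd_self_sub_emod
    have h5 : (p : ℤ) ∣ v * (A * z + B) := hz.mul_left v
    have e : z - (- B * v) % p = v * (A * z + B) + ((- B * v) - (- B * v) % p) + p * (u * z) := by
      linear_combination (-z) * huv
    rw [e]
    exact dvd_add (dvd_add h5 h4) (dvd_mul_right _ _)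

/-- simultaneous residues modulo the small primes -/
theorem residues (N : ℕ) (ζ : ℕ → ℕ) (pos : ℤ) : ∃ κ : ℤ, 0 ≤ κ ∧ κ < primorial N ∧
    ∀ p : ℕ, p.Prime → p ≤ N → (p : ℤ) ∣ pos + κ - ζ p := by
  have hpr : (0 : ℤ) < primorial N := by exact_mod_cast primorial_pos N
  obtain ⟨y, hy⟩ := Nat.chineseRemainderOfFinset ζ id ((range (N + 1)).filter Nat.Prime)
    (fun p hp => (mem_filter.1 hp).2.ne_zero)
    (fun p hp q hq hpq => (Nat.coprime_primes (mem_filter.1 (mem_coe.1 hp)).2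
      (mem_filter.1 (mem_coe.1 hq)).2).2 hpq)
  refine ⟨((y : ℤ) - pos) % primorial N, Int.emod_nonneg _ hpr.ne', Int.emod_lt_of_pos _ hpr, fun p hp hpN => ?_⟩
  have h1 : p ∈ (range (N + 1)).filter Nat.Prime := mem_filter.2 ⟨mem_range.2 (by omega), hp⟩
  have h2 : (p : ℤ) ∣ (y : ℤ) - ζ p := by
    have h3 := hy p h1
    simp only [id] at h3
    exact (Nat.modEq_iff_dvd.1 h3.symm)
  have h4 : (p : ℤ) ∣ (primorial N : ℤ) := by
    have : p ∣ primorial N := dvd_prod_of_mem _ h1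
    exact_mod_cast this
  have h5 : (primorial N : ℤ) ∣ ((y : ℤ) - pos) - ((y : ℤ) - pos) % primorial N := Int.dvd_self_sub_emod
  have e : pos + ((y : ℤ) - pos) % primorial N - ζ p =
      ((y : ℤ) - ζ p) - (((y : ℤ) - pos) - ((y : ℤ) - pos) % primorial N) := by ring
  rw [e]
  exact dvd_sub h2 (h4.trans h5)

/-- a common value which avoids all the classes -/
theorem avoid {p : ℕ} (hp : p.Prime) (ξ : ℤ) (ζ : ℕ → ℤ) (y : ℕ → ℕ → ℤ)
    (hy : ∀ t e, p ≤ Nat.pair t e + 3 → (p : ℤ) ∣ y t e - ζ e) :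
    ∃ ρ : ℤ, ∀ t e, ¬ (p : ℤ) ∣ (ρ + ξ + y t e) - ζ e := by
  classical
  have : Fact p.Prime := ⟨hp⟩
  have hp2 := hp.two_le
  set E : Finset (ZMod p) := insert ((- ξ : ℤ) : ZMod p)
    ((range (p - 3)).image (fun c => ((ζ (Nat.unpair c).2 - ξ - y (Nat.unpair c).1 (Nat.unpair c).2 : ℤ) : ZMod p))) with hE
  have h1 : E.card < (univ : Finset (ZMod p)).card := by
    rw [card_univ, ZMod.card]
    have h2 : E.card ≤ ((range (p - 3)).image
      (fun c => ((ζ (Nat.unpair c).2 - ξ - y (Nat.unpair c).1 (Nat.unpair c).2 : ℤ) : ZMod p))).card + 1 :=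
      card_insert_le _ _
    have h3 : ((range (p - 3)).image
      (fun c => ((ζ (Nat.unpair c).2 - ξ - y (Nat.unpair c).1 (Nat.unpair c).2 : ℤ) : ZMod p))).card ≤ p - 3 := by
      refine card_image_le.trans ?_
      rw [card_range]
    omega
  obtain ⟨z, -, hz⟩ := exists_mem_notMem_of_card_lt_card h1
  refine ⟨(z.val : ℤ), fun t e hd => hz ?_⟩
  have h2 := (ZMod.intCast_zmod_eq_zero_iff_dvd ((z.val : ℤ) + ξ + y t e - ζ e) p).2 hd
  push_cast at h2
  rw [ZMod.natCast_zmod_val] at h2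
  by_cases ht : Nat.pair t e < p - 3
  · refine mem_insert_of_mem (mem_image.2 ⟨Nat.pair t e, mem_range.2 ht, ?_⟩)
    rw [Nat.unpair_pair]
    push_cast
    linear_combination -h2
  · have h3 := (ZMod.intCast_zmod_eq_zero_iff_dvd (y t e - ζ e) p).2 (hy t e (by omega))
    push_cast at h3
    have h4 : z = ((- ξ : ℤ) : ZMod p) := by
      push_cast
      linear_combination h2 - h3
    rw [h4]
    exact mem_insert_self _ _

theorem comp_one (c z : ℤ) (f : ℤ × ℤ) : comp (1, c) (comp (1, z) f) = comp (1, c + z) f := by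
  simp only [comp]
  refine Prod.ext ?_ ?_
  · simp
  · simp only
    ring

theorem comp_prim {f : ℤ × ℤ} (h : 0 < f.1 ∧ IsCoprime f.1 f.2) (z : ℤ) :
    0 < (comp (1, z) f).1 ∧ IsCoprime (comp (1, z) f).1 (comp (1, z) f).2 := by
  simp only [comp, mul_one]
  refine ⟨h.1, ?_⟩
  have := IsCoprime.add_mul_left_right h.2 z
  rwa [add_comm] at this

/-- **positions in chains** -/
theorem start (a : ℕ) (b : ℤ) (ha : 2 ≤ a) (hab : IsCoprime (a : ℤ) b) (q : ℕ)
    (τ : ℕ → ℕ) (x : ℕ → ℤ) (hτx : Function.Injective (fun j => (τ j, x j)))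
    (W : ℕ → Finset ℕ) (hW : ∀ t, (W t).Nonempty) (η : ℝ) (hη : 0 < η) (hq : 1 ≤ q) :
    ∃ 𝒮 : Set ℕ, (∃ᶠ t in atTop, (5 / 18 - η) * ((W t).card : ℝ) ≤ ((𝒮 ∩ (W t : Set ℕ)).ncard : ℝ)) ∧
      ∀ I : Finset ℕ, (∀ e ∈ I, e ∈ 𝒮) → ∀ (ε : ℝ), 0 < ε → ε < 1 → ∀ (k m : ℕ → ℕ), (∀ j, 1 ≤ k j) →
      (∀ j, 1 ≤ m j) →
      ∃ C : ℕ → Finset ℤ, ∀ (V : ℕ → ℕ → ℤ) (P : ℕ → ℕ → ℝ) (s : ℕ → ℕ), (∀ t j, 0 ≤ P t j) →
        (∀ t, ∑ j ∈ range (s t), P t j = 1) →
        ∃ (E : ℕ → Set ℤ) (J : ℕ → ℕ), StrictMono J ∧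
          (∃ᶠ t in atTop, 1 - ε ≤ ∑ j ∈ range (s t), P t j *
            ind (∃ R ⊆ range (k j), (1 - ε) * k j ≤ R.card ∧ ∀ i ∈ R, ∀ e ∈ I, ∃ E' ⊆ C j, E'.card = m j ∧
              ∀ c ∈ E', V j i + c ∈ E e)) ∧
          ∀ (T : Finset ℤ) (n : ℕ) (i : Fin n → ℕ), StrictMono i → (∀ u, n ≤ i u ∧ T ⊆ Icc (-(i u : ℤ)) (i u)) →
            GoodE {g | ∃ (v : ℕ) (z : ℤ), ¬ q ∣ v ∧ g = comp (1, z) (fO a b v)}
              {g : Fin n → ℤ × ℤ | ∃ (e : Fin n → ℕ) (y : Fin n → ℤ),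
              (∀ u, e u ∈ I ∧ y u ∈ T ∧ y u ∈ E (e u)) ∧ ∀ u, g u =
                comp (1, y u) (comp (1, x (J (i u))) (fO a b (q * (τ (J (i u)) + e u))))} := by
  classical
  have hprim : ∀ (z : ℤ) (v : ℕ), 0 < (comp (1, z) (fO a b v)).1 ∧
      IsCoprime (comp (1, z) (fO a b v)).1 (comp (1, z) (fO a b v)).2 := fun z v => comp_prim (fO_prim ha hab v) z
  have heq : ∀ (z z' : ℤ) (v v' : ℕ), comp (1, z) (fO a b v) = comp (1, z') (fO a b v') → v = v' ∧ z = z' := by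
    intro z z' v v' h
    have h1 := congrArg Prod.fst h
    have h2 := congrArg Prod.snd h
    simp only [comp, fO, mul_one] at h1 h2
    have h3 : v = v' := by
      have h4 : a ^ v = a ^ v' := by exact_mod_cast h1
      exact Nat.pow_right_injective ha h4
    subst h3
    have ha0 : (a : ℤ) ^ v ≠ 0 := pow_ne_zero _ (by exact_mod_cast (by omega : a ≠ 0))
    exact ⟨rfl, mul_left_cancel₀ ha0 (by linarith)⟩
  refine typed (op := fun a b : ℤ => a + b) (fun a b c => add_assoc a b c) sep_int (fun s => (1, s)) (fun _ => le_rfl)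
    comp_one (fun j e => comp (1, x j) (fO a b (q * (τ j + e)))) ?_ ?_ ?_ ?_ ?_ ?_ W hW η hη
    (fun n => Icc (-(n : ℤ)) n)
  · rintro _ ⟨v, z, -, rfl⟩
    exact hprim z v
  · rintro c _ ⟨v, z, hv, rfl⟩
    exact ⟨v, c + z, hv, comp_one c z _⟩
  · rintro j e y ⟨v, z, hv, h⟩
    rw [comp_one] at h
    apply hv
    rw [← (heq _ _ _ _ h).1]
    exact dvd_mul_right _ _
  · intro j e y
    rw [comp_one]
    exact hprim _ _
  · intro j y e y' e'
    have h1 : ∀ᶠ j' in atTop, (τ j', x j') ≠ (τ j + e - e', y + x j - y') := by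
      by_cases h : ∃ j0, (τ j0, x j0) = (τ j + e - e', y + x j - y')
      · obtain ⟨j0, hj0⟩ := h
        filter_upwards [eventually_gt_atTop j0] with j' hj' h2
        rw [← hj0] at h2
        exact hj'.ne' (hτx h2)
      · exact Filter.Eventually.of_forall fun j' hj' => h ⟨j', hj'⟩
    filter_upwards [h1] with j' hj' he
    rw [comp_one, comp_one] at he
    obtain ⟨h2, h3⟩ := heq _ _ _ _ he
    apply hj'
    have h4 : τ j' + e' = τ j + e := Nat.eq_of_mul_eq_mul_left hq h2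
    refine Prod.ext ?_ ?_
    · show τ j' = τ j + e - e'
      omega
    · show x j' = y + x j - y'
      linarith
  · intro W'
    -- the residues to be avoided
    have hζ : ∀ (p e : ℕ), ∃ ζ : ℕ, p.Prime → ∀ᶠ j in (U : Filter ℕ), ∀ z : ℤ,
        (p : ℤ) ∣ (fO a b (q * (τ j + e))).1 * z + (fO a b (q * (τ j + e))).2 → (p : ℤ) ∣ z - ζ := by
      intro p e
      by_cases hp : p.Prime
      · obtain ⟨ζ, hζ⟩ := choose_one (α := Fin p) (fun ζ j => ∀ z : ℤ,
          (p : ℤ) ∣ (fO a b (q * (τ j + e))).1 * z + (fO a b (q * (τ j + e))).2 → (p : ℤ) ∣ z - ((ζ : ℕ) : ℤ))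
          (Filter.Eventually.of_forall fun j => one_class hp (fO_prim ha hab _).2)
        exact ⟨ζ, fun _ => hζ⟩
      · exact ⟨0, fun h => absurd h hp⟩
    choose ζ hζ using hζ
    refine ⟨fun t => Ico 0 (∑ e ∈ W', (primorial (Nat.pair t e + 3) : ℤ)), fun pos => ?_⟩
    choose κ hκ0 hκ1 hκ2 using fun t e => residues (Nat.pair t e + 3) (fun p => ζ p e) (pos t)
    refine ⟨κ, fun t e he => mem_Ico.2 ⟨hκ0 t e, lt_of_lt_of_le (hκ1 t e) ?_⟩, fun Λ p hp => ?_⟩
    · exact single_le_sum (f := fun e => (primorial (Nat.pair t e + 3) : ℤ)) (fun _ _ => Nat.cast_nonneg _) he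
    · have hp0 : (0 : ℤ) < p := by exact_mod_cast hp.pos
      -- the translation modulo `p`
      obtain ⟨ξ, hξ⟩ := choose_one (α := Fin p) (fun c j => (p : ℤ) ∣ x j - ((c : ℕ) : ℤ))
        (Filter.Eventually.of_forall fun j => by
          have h2 : 0 ≤ x j % p := Int.emod_nonneg _ hp0.ne'
          have h3 : x j % p < p := Int.emod_lt_of_pos _ hp0
          refine ⟨⟨(x j % p).toNat, by omega⟩, ?_⟩
          simp only
          rw [Int.toNat_of_nonneg h2]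
          exact Int.dvd_self_sub_emod)
      obtain ⟨ρ, hρ⟩ := avoid hp (((ξ : ℕ) : ℤ)) (fun e => (ζ p e : ℤ)) (fun t e => pos t + κ t e)
        (fun t e hpt => hκ2 t e p hp hpt)
      refine ⟨ρ, ?_⟩
      have h5 : ∀ᶠ j in (U : Filter ℕ), ∀ e ∈ Λ.image Prod.snd, ∀ z : ℤ,
        (p : ℤ) ∣ (fO a b (q * (τ j + e))).1 * z + (fO a b (q * (τ j + e))).2 → (p : ℤ) ∣ z - ζ p e := by
        rw [Filter.eventually_all_finset]
        intro e _
        exact hζ p e hp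
      filter_upwards [hξ, h5] with j hj h5 z hz hd
      rw [comp_one] at hd
      simp only [comp, mul_one] at hd
      have h6 := h5 z.2 (mem_image_of_mem _ hz) (ρ + (pos z.1 + κ z.1 z.2 + x j)) (by
        have e : (fO a b (q * (τ j + z.2))).1 * (ρ + (pos z.1 + κ z.1 z.2 + x j)) + (fO a b (q * (τ j + z.2))).2 =
          (fO a b (q * (τ j + z.2))).1 * ρ +
            ((fO a b (q * (τ j + z.2))).1 * (pos z.1 + κ z.1 z.2 + x j) + (fO a b (q * (τ j + z.2))).2) := by ring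
        rw [e]
        exact hd)
      apply hρ z.1 z.2
      have e : ρ + ((ξ : ℕ) : ℤ) + (pos z.1 + κ z.1 z.2) - (ζ p z.2 : ℤ) =
        (ρ + (pos z.1 + κ z.1 z.2 + x j) - (ζ p z.2 : ℤ)) - (x j - ((ξ : ℕ) : ℤ)) := by ring
      rw [e]
      exact dvd_sub h6 hj

end Pool.Agent.U289.NY
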