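import Pool.Agent.U289.NY.Typed
import Pool.Agent.U289.NX.Orb

/-! Many starting points of chains of both kinds, near most members of every array of times. -/

set_option autoImplicit false

namespace Pool.Agent.U289.NY

open Finset Filter
open Pool.Agent.U289.KT (U ev_ge L Lab choose_one)
open Pool.Agent.U289.NX

theorem comp_dil (c x : ℤ) (f : ℤ × ℤ) : comp (c, 0) (comp (x, 0) f) = comp (c * x, 0) f := by
  simp only [comp]
  refine Prod.ext ?_ ?_
  · simp only
    ring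
  · simp

/-- the primitive forms `y m ± 1` outside the chains -/
def Oth (a q : ℕ) (A : ℕ → ℕ) (δ : ℕ → ℤ) : Set (ℤ × ℤ) :=
  {g | ∃ (y : ℕ) (ε : ℤ), 1 ≤ y ∧ (ε = 1 ∨ ε = -1) ∧ (∀ e i, ¬ (y = a ^ (q * i) * A e ∧ ε = δ e)) ∧ g = ((y : ℤ), ε)}

/-- **starting points of chains** -/
theorem mult (a : ℕ) (ha : 2 ≤ a) (q : ℕ) (hq : 1 ≤ q) (A : ℕ → ℕ) (hA : ∀ e, ¬ a ^ q ∣ A e)
    (δ : ℕ → ℤ) (hδ : ∀ e, δ e = 1 ∨ δ e = -1) (τ : ℕ → ℕ) (hτ : Function.Injective τ)
    (W : ℕ → Finset ℕ) (hW : ∀ t, (W t).Nonempty) (η : ℝ) (hη : 0 < η) :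
    ∃ 𝒮 : Set ℕ, (∃ᶠ t in atTop, (5 / 18 - η) * ((W t).card : ℝ) ≤ ((𝒮 ∩ (W t : Set ℕ)).ncard : ℝ)) ∧
      ∀ I : Finset ℕ, (∀ e ∈ I, e ∈ 𝒮) → ∀ (ε : ℝ), 0 < ε → ε < 1 → ∀ (k m : ℕ → ℕ), (∀ j, 1 ≤ k j) →
      (∀ j, 1 ≤ m j) →
      ∃ C : ℕ → Finset ℕ, ∀ (V : ℕ → ℕ → ℕ) (P : ℕ → ℕ → ℝ) (s : ℕ → ℕ), (∀ t j, 0 ≤ P t j) →
        (∀ t, ∑ j ∈ range (s t), P t j = 1) →
        ∃ (E : ℕ → Set ℕ) (J : ℕ → ℕ), StrictMono J ∧
          (∃ᶠ t in atTop, 1 - ε ≤ ∑ j ∈ range (s t), P t j *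
            ind (∃ R ⊆ range (k j), (1 - ε) * k j ≤ R.card ∧ ∀ i ∈ R, ∀ e ∈ I, ∃ E' ⊆ C j, E'.card = m j ∧
              ∀ c ∈ E', V j i + c ∈ E e)) ∧
          ∀ (T : Finset ℕ) (n : ℕ) (i : Fin n → ℕ), StrictMono i → (∀ u, n ≤ i u ∧ T ⊆ range (i u + 1)) →
            GoodE (Oth a q A δ)
              {g : Fin n → ℤ × ℤ | ∃ (e : Fin n → ℕ) (y : Fin n → ℕ),
              (∀ u, e u ∈ I ∧ y u ∈ T ∧ y u ∈ E (e u)) ∧ ∀ u, g u =
                comp ((a : ℤ) ^ (q * y u), 0) ((a : ℤ) ^ (q * τ (J (i u))) * (A (e u) : ℤ), δ (e u))} := by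
  classical
  have ha0 : (0 : ℤ) < a := by exact_mod_cast (by omega : 0 < a)
  have hA0 : ∀ e, 1 ≤ A e := fun e => by
    by_contra h
    have : A e = 0 := by omega
    exact hA e (this ▸ dvd_zero _)
  have hunit : ∀ e, IsUnit (δ e) := fun e => by
    rcases hδ e with h | h <;> rw [h]
    · exact isUnit_one
    · exact isUnit_one.neg
  have hval : ∀ j e y, comp ((a : ℤ) ^ (q * y), 0) ((a : ℤ) ^ (q * τ j) * (A e : ℤ), δ e) =
      (((a ^ (q * (τ j + y)) * A e : ℕ) : ℤ), δ e) := by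
    intro j e y
    simp only [comp]
    refine Prod.ext ?_ ?_
    · simp only
      push_cast
      rw [mul_add, pow_add]
      ring
    · simp
  refine typed (op := fun a b : ℕ => a + b) (fun a b c => add_assoc a b c) sep_nat
    (fun s => ((a : ℤ) ^ (q * s), 0)) (fun c => ?_) ?_ (fun j e => ((a : ℤ) ^ (q * τ j) * (A e : ℤ), δ e))
    ?_ ?_ ?_ ?_ ?_ ?_ W hW η hη (fun n => range (n + 1))
  · exact one_le_pow₀ (by linarith [ha0])
  · intro c x f
    rw [comp_dil, mul_add, pow_add]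
  · rintro _ ⟨y, ε, hy, hε, -, rfl⟩
    refine ⟨by show (0 : ℤ) < y; exact_mod_cast hy, ?_⟩
    rcases hε with h | h <;> rw [h]
    · exact isCoprime_one_right
    · exact isCoprime_one_right.neg_right
  · rintro c _ ⟨y, ε, hy, hε, hne, rfl⟩
    refine ⟨y * a ^ (q * c), ε, Nat.mul_pos hy (pow_pos (by omega) _), hε, ?_, ?_⟩
    · rintro e i ⟨h1, h2⟩
      rcases Nat.lt_or_ge i c with hic | hic
      · apply hA e
        have h3 : q * c = q * i + q * (c - i) := by
          rw [← mul_add]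
          congr 1
          omega
        rw [h3, pow_add] at h1
        have h4 : a ^ (q * i) * (y * a ^ (q * (c - i))) = a ^ (q * i) * A e := by
          rw [← h1]
          ring
        have h5 := Nat.eq_of_mul_eq_mul_left (pow_pos (by omega) _) h4
        rw [← h5]
        have h6 : a ^ q ∣ a ^ (q * (c - i)) := pow_dvd_pow a (Nat.le_mul_of_pos_right q (by omega))
        exact h6.mul_left y
      · apply hne e (i - c)
        refine ⟨?_, h2⟩
        have h3 : q * i = q * c + q * (i - c) := by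
          rw [← mul_add]
          congr 1
          omega
        rw [h3, pow_add] at h1
        have h4 : a ^ (q * c) * y = a ^ (q * c) * (a ^ (q * (i - c)) * A e) := by
          rw [mul_comm, h1]
          ring
        exact Nat.eq_of_mul_eq_mul_left (pow_pos (by omega) _) h4
    · simp only [comp]
      refine Prod.ext ?_ ?_
      · push_cast
        rfl
      · simp
  · rintro j e x ⟨y, ε, -, -, hne, h⟩
    rw [hval] at h
    refine hne e (τ j + x) ⟨?_, (congrArg Prod.snd h).symm⟩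
    have h1 := congrArg Prod.fst h
    simp only at h1
    exact_mod_cast h1.symm
  · intro j e x
    rw [hval]
    refine ⟨?_, ?_⟩
    · simp only
      exact_mod_cast Nat.mul_pos (pow_pos (by omega) _) (hA0 e)
    · simp only
      rcases hδ e with h | h <;> rw [h]
      · exact isCoprime_one_right
      · exact isCoprime_one_right.neg_right
  · intro j x e x' e'
    filter_upwards [hτ.nat_tendsto_atTop.eventually_ge_atTop (a ^ (q * (τ j + x)) * A e)] with j' hj' h
    rw [hval, hval] at h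
    have h1 := congrArg Prod.fst h
    simp only at h1
    have h2 : a ^ (q * (τ j' + x')) * A e' = a ^ (q * (τ j + x)) * A e := by exact_mod_cast h1
    have h3 : τ j' < a ^ τ j' := Nat.lt_pow_self (by omega)
    have h4 : a ^ τ j' ≤ a ^ (q * (τ j' + x')) := Nat.pow_le_pow_right (by omega) (by nlinarith)
    have h5 : a ^ (q * (τ j' + x')) ≤ a ^ (q * (τ j' + x')) * A e' := Nat.le_mul_of_pos_right _ (hA0 e')
    omega
  · intro W'
    refine ⟨fun t => {0}, fun pos => ⟨fun t e => 0, fun t e _ => mem_singleton_self 0, fun Λ p hp => ⟨0,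
      Filter.Eventually.of_forall fun j z _ hd => ?_⟩⟩⟩
    rw [hval] at hd
    simp only [mul_zero, zero_add] at hd
    exact (Nat.prime_iff_prime_int.1 hp).not_isUnit (isUnit_of_dvd_unit hd (hunit z.2))

end Pool.Agent.U289.NY
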