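import Pool.Agent.U289.NX.Main

/-! Nested configurations with types: for some large set of types, elements of all these types occur near almost
all points of every weight. -/

set_option autoImplicit false

namespace Pool.Agent.U289.NY

open Finset Filter
open Pool.Agent.U289.KT (U ev_ge)
open Pool.Agent.U289.NX

variable {M : Type}

/-- the set `S` has elements of all the types in `I` in the window `v K` -/
def HitT (op : M → M → M) (ty : M → ℕ) (I : Finset ℕ) (S : Set M) (v : M) (K : Finset M) : Prop :=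
  ∀ e ∈ I, ∃ k ∈ K, ty k = e ∧ op v k ∈ S

theorem HitT.anti {op : M → M → M} {ty : M → ℕ} {I I' : Finset ℕ} (h : I' ⊆ I) {S : Set M} {v : M} {K : Finset M}
    (hI : HitT op ty I S v K) : HitT op ty I' S v K := fun e he => hI e (h he)

/-- for the set `I` of types the theorem holds -/
def Dense (op : M → M → M) (ty : M → ℕ) (Φ : Set M → Prop) (I : Finset ℕ) : Prop :=
  ∀ ρ : ℝ, 0 ≤ ρ → ρ < 1 → ∃ C : ℕ → Finset M, ∀ (v : ℕ → M) (p : ℕ → ℝ) (s : ℕ),
    (∀ j, 0 ≤ p j) → ∑ j ∈ range s, p j = 1 →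
      ∃ S, Φ S ∧ ρ < ∑ j ∈ range s, p j * ind (HitT op ty I S (v j) (C j))

theorem Dense.anti {op : M → M → M} {ty : M → ℕ} {Φ : Set M → Prop} {I I' : Finset ℕ} (h : I' ⊆ I)
    (hI : Dense op ty Φ I) : Dense op ty Φ I' := by
  intro ρ h0 h1
  obtain ⟨C, hC⟩ := hI ρ h0 h1
  refine ⟨C, fun v p s hp hp1 => ?_⟩
  obtain ⟨S, hS, hS2⟩ := hC v p s hp hp1
  refine ⟨S, hS, hS2.trans_le (sum_le_sum fun j _ => mul_le_mul_of_nonneg_left (ind_mono ?_) (hp j))⟩
  exact HitT.anti h

/-- the negation of the theorem for the set `I` of types and the proportion `ρ` -/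
def NegT (op : M → M → M) (ty : M → ℕ) (Φ : Set M → Prop) (I : Finset ℕ) (ρ : ℝ) : Prop :=
  ∀ C : ℕ → Finset M, ∃ (v : ℕ → M) (p : ℕ → ℝ) (s : ℕ),
    (∀ j, 0 ≤ p j) ∧ ∑ j ∈ range s, p j = 1 ∧
    ∀ S, Φ S → ∑ j ∈ range s, p j * ind (HitT op ty I S (v j) (C j)) ≤ ρ

theorem NegT.mono {op : M → M → M} {ty : M → ℕ} {Φ : Set M → Prop} {I : Finset ℕ} {ρ ρ' : ℝ} (h : ρ ≤ ρ')
    (hn : NegT op ty Φ I ρ) : NegT op ty Φ I ρ' := by
  intro C
  obtain ⟨v, p, s, h1, h2, h3⟩ := hn C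
  exact ⟨v, p, s, h1, h2, fun S hS => (h3 S hS).trans h⟩

/-- a finite configuration of windows with the prescribed shapes, with indices starting at `i0`, in which every set
of the family has elements of all the types in `I` with weight at most `β I`, for all the `I` in `𝓘` -/
def ConfT (op : M → M → M) (ty : M → ℕ) (Φ : Set M → Prop) (𝓘 : Finset (Finset ℕ)) (K : ℕ → Finset M)
    (β : Finset ℕ → ℝ) (i0 L : ℕ) (pos : ℕ → M) (w : ℕ → ℝ) (D : Finset M) : Prop :=
  1 ≤ L ∧ (∀ t, 0 ≤ w t) ∧ ∑ t ∈ Ico i0 (i0 + L), w t = 1 ∧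
    (∀ t ∈ Ico i0 (i0 + L), ∀ k ∈ K t, op (pos t) k ∈ D) ∧
    ∀ S, Φ S → ∀ I ∈ 𝓘, ∑ t ∈ Ico i0 (i0 + L), w t * ind (HitT op ty I S (pos t) (K t)) ≤ β I

theorem ConfT.mono {op : M → M → M} {ty : M → ℕ} {Φ : Set M → Prop} {𝓘 : Finset (Finset ℕ)} {K : ℕ → Finset M}
    {β β' : Finset ℕ → ℝ} (h : ∀ I ∈ 𝓘, β I ≤ β' I) {i0 L : ℕ} {pos : ℕ → M} {w : ℕ → ℝ} {D : Finset M}
    (hc : ConfT op ty Φ 𝓘 K β i0 L pos w D) : ConfT op ty Φ 𝓘 K β' i0 L pos w D :=
  ⟨hc.1, hc.2.1, hc.2.2.1, hc.2.2.2.1, fun S hS I hI => (hc.2.2.2.2 S hS I hI).trans (h I hI)⟩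

theorem conf_succ [DecidableEq M] {op : M → M → M} (hassoc : ∀ a b c, op (op a b) c = op a (op b c))
    {ty : M → ℕ} (hty : ∀ a b, ty (op a b) = ty b)
    {Φ : Set M → Prop} (hshift : ∀ (S : Set M) (c : M), Φ S → Φ {x | op c x ∈ S}) {𝓘 : Finset (Finset ℕ)}
    (K : ℕ → Finset M) (ρ : ℝ) (β : Finset ℕ → ℝ) (hβ : ∀ I, 0 ≤ β I) {I0 : Finset ℕ} (hI0 : I0 ∈ 𝓘)
    (hneg : NegT op ty Φ I0 ρ)
    (h : ∀ i0, ∃ L pos w D, ConfT op ty Φ 𝓘 K β i0 L pos w D) :
    ∀ i0, ∃ L pos w D, ConfT op ty Φ 𝓘 K (fun I => if I = I0 then ρ * β I else β I) i0 L pos w D := by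
  intro i0
  choose L pos w D hC using h
  -- the first indices of the children
  set st : ℕ → ℕ := fun j => Nat.rec i0 (fun _ x => x + L x) j with hst
  have hst0 : st 0 = i0 := rfl
  have hsts : ∀ j, st (j + 1) = st j + L (st j) := fun j => rfl
  have hmono : StrictMono st := strictMono_nat_of_lt_succ fun j => by
    rw [hsts]
    have := (hC (st j)).1
    omega
  obtain ⟨v, p, s, hp, hp1, hpS⟩ := hneg (fun j => D (st j))
  have hex : ∀ t, ∃ j, t < st (j + 1) := fun t => ⟨t, lt_of_lt_of_le (Nat.lt_succ_self t) (hmono.id_le (t + 1))⟩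
  set ch : ℕ → ℕ := fun t => Nat.find (hex t) with hch
  have hch_eq : ∀ t j, t ∈ Ico (st j) (st (j + 1)) → ch t = j := by
    intro t j ht
    rw [Finset.mem_Ico] at ht
    refine le_antisymm (Nat.find_min' _ ht.2) ?_
    by_contra hlt
    push Not at hlt
    have h3 : t < st (ch t + 1) := Nat.find_spec (hex t)
    have h4 : st (ch t + 1) ≤ st j := hmono.monotone hlt
    omega
  have hchild : ∀ t ∈ Ico i0 (st s), ∃ j < s, t ∈ Ico (st j) (st (j + 1)) := by
    intro t ht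
    rw [Finset.mem_Ico] at ht
    have h3 : t < st (ch t + 1) := Nat.find_spec (hex t)
    have hle : st (ch t) ≤ t := by
      rcases Nat.eq_zero_or_pos (ch t) with h0 | h0
      · rw [h0, hst0]; exact ht.1
      · have := Nat.find_min (hex t) (m := ch t - 1) (Nat.sub_lt h0 one_pos)
        have e1 : ch t - 1 + 1 = ch t := by omega
        rw [not_lt, e1] at this
        exact this
    refine ⟨ch t, ?_, Finset.mem_Ico.2 ⟨hle, h3⟩⟩
    by_contra hlt
    push Not at hlt
    have := hmono.monotone hlt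
    omega
  set w' : ℕ → ℝ := fun t => p (ch t) * w (st (ch t)) t with hw'
  set pos' : ℕ → M := fun t => op (v (ch t)) (pos (st (ch t)) t) with hpos'
  set D' : Finset M := (range s).biUnion (fun j => (D (st j)).image (op (v j))) with hD'
  have hi0s : i0 ≤ st s := by
    have := hmono.monotone (Nat.zero_le s)
    rwa [hst0] at this
  have hLs : i0 + (st s - i0) = st s := by omega
  refine ⟨st s - i0, pos', w', D', ?_, ?_, ?_, ?_, ?_⟩
  · have hs : s ≠ 0 := by
      rintro rfl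
      rw [Finset.sum_range_zero] at hp1
      norm_num at hp1
    have := hmono (Nat.pos_of_ne_zero hs)
    rw [hst0] at this
    omega
  · intro t
    exact mul_nonneg (hp _) ((hC _).2.1 t)
  · rw [hLs, ← hst0, sum_blocks st hmono.monotone, ← hp1]
    refine Finset.sum_congr rfl fun j _ => ?_
    have h1 : ∑ t ∈ Ico (st j) (st (j + 1)), w' t = ∑ t ∈ Ico (st j) (st j + L (st j)), p j * w (st j) t := by
      refine Finset.sum_congr (by rw [hsts]) fun t ht => ?_
      rw [hw']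
      simp only
      rw [hch_eq t j (by rw [hsts]; exact ht)]
    rw [h1, ← Finset.mul_sum, (hC (st j)).2.2.1, mul_one]
  · intro t ht k hk
    rw [hLs] at ht
    obtain ⟨j, hj, htj⟩ := hchild t ht
    have h1 := (hC (st j)).2.2.2.1 t (by rw [← hsts]; exact htj) k hk
    rw [hpos']
    simp only
    rw [hch_eq t j htj, hassoc]
    exact mem_biUnion.2 ⟨j, mem_range.2 hj, mem_image_of_mem _ h1⟩
  · intro S hS I hI
    rw [hLs, ← hst0, sum_blocks st hmono.monotone]
    have e1 : ∀ j, ∑ t ∈ Ico (st j) (st (j + 1)), w' t * ind (HitT op ty I S (pos' t) (K t)) =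
        p j * ∑ t ∈ Ico (st j) (st j + L (st j)), w (st j) t *
          ind (HitT op ty I {x | op (v j) x ∈ S} (pos (st j) t) (K t)) := by
      intro j
      rw [Finset.mul_sum]
      refine Finset.sum_congr (by rw [hsts]) fun t ht => ?_
      rw [hw', hpos']
      simp only
      rw [hch_eq t j (by rw [hsts]; exact ht)]
      have h3 : HitT op ty I S (op (v j) (pos (st j) t)) (K t) ↔
          HitT op ty I {x | op (v j) x ∈ S} (pos (st j) t) (K t) := by
        unfold HitT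
        simp only [hassoc, Set.mem_ofPred_eq]
      rw [ind_congr h3]
      ring
    simp only [e1]
    split_ifs with hII
    · rw [hII]
      have h1 : ∀ j ∈ range s, p j * ∑ t ∈ Ico (st j) (st j + L (st j)), w (st j) t *
          ind (HitT op ty I0 {x | op (v j) x ∈ S} (pos (st j) t) (K t)) ≤
          β I0 * (p j * ind (HitT op ty I0 S (v j) (D (st j)))) := by
        intro j _
        by_cases hH : HitT op ty I0 S (v j) (D (st j))
        · rw [ind_pos hH, mul_one, mul_comm (β I0)]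
          exact mul_le_mul_of_nonneg_left ((hC (st j)).2.2.2.2 _ (hshift S (v j) hS) I0 hI0) (hp j)
        · rw [ind_neg hH, mul_zero, mul_zero]
          have h2 : ∑ t ∈ Ico (st j) (st j + L (st j)), w (st j) t *
              ind (HitT op ty I0 {x | op (v j) x ∈ S} (pos (st j) t) (K t)) = 0 := by
            refine Finset.sum_eq_zero fun t ht => ?_
            rw [ind_neg, mul_zero]
            intro hh
            apply hH
            intro e he
            obtain ⟨k, hk, hk1, hk2⟩ := hh e he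
            exact ⟨_, (hC (st j)).2.2.2.1 t ht k hk, by rw [hty, hk1], hk2⟩
          rw [h2, mul_zero]
      calc _ ≤ ∑ j ∈ range s, β I0 * (p j * ind (HitT op ty I0 S (v j) (D (st j)))) := Finset.sum_le_sum h1
        _ = β I0 * ∑ j ∈ range s, p j * ind (HitT op ty I0 S (v j) (D (st j))) := by rw [Finset.mul_sum]
        _ ≤ β I0 * ρ := mul_le_mul_of_nonneg_left (hpS S hS) (hβ I0)
        _ = ρ * β I0 := mul_comm _ _
    · calc _ ≤ ∑ j ∈ range s, p j * β I := Finset.sum_le_sum fun j _ =>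
            mul_le_mul_of_nonneg_left ((hC (st j)).2.2.2.2 _ (hshift S (v j) hS) I hI) (hp j)
        _ = β I := by rw [← Finset.sum_mul, hp1, one_mul]

/-- **nested configurations with types** -/
theorem nest [DecidableEq M] [Nonempty M] {op : M → M → M} (hassoc : ∀ a b c, op (op a b) c = op a (op b c))
    {ty : M → ℕ} (hty : ∀ a b, ty (op a b) = ty b)
    {Φ : Set M → Prop} (hshift : ∀ (S : Set M) (c : M), Φ S → Φ {x | op c x ∈ S}) (𝓘 : Finset (Finset ℕ))
    (K : ℕ → Finset M) (δ : ℝ) (hδ : 0 < δ)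
    (hbase : ∀ (J : Finset ℕ) (pos : ℕ → M) (w : ℕ → ℝ), (∀ t, 0 ≤ w t) → ∃ S, Φ S ∧
      δ * ∑ t ∈ J, w t ≤ ∑ t ∈ J, w t * ind (∃ I ∈ 𝓘, HitT op ty I S (pos t) (K t))) :
    ∃ I ∈ 𝓘, Dense op ty Φ I := by
  classical
  by_contra hcon
  have hneg : ∀ I ∈ 𝓘, ∃ ρ : ℝ, 0 ≤ ρ ∧ ρ < 1 ∧ NegT op ty Φ I ρ := by
    intro I hI
    by_contra hI2
    apply hcon
    refine ⟨I, hI, fun ρ h0 h1 => ?_⟩
    by_contra hC
    apply hI2
    refine ⟨ρ, h0, h1, fun C => ?_⟩
    by_contra hC2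
    apply hC
    refine ⟨C, fun v p s hp hp1 => ?_⟩
    by_contra hS
    apply hC2
    refine ⟨v, p, s, hp, hp1, fun S hS1 => ?_⟩
    by_contra hlt
    exact hS ⟨S, hS1, not_le.1 hlt⟩
  obtain ⟨ρ, hρ0, hρ, hneg⟩ : ∃ ρ : ℝ, 0 ≤ ρ ∧ ρ < 1 ∧ ∀ I ∈ 𝓘, NegT op ty Φ I ρ := by
    have : ∀ 𝓙 : Finset (Finset ℕ), 𝓙 ⊆ 𝓘 → ∃ ρ : ℝ, 0 ≤ ρ ∧ ρ < 1 ∧ ∀ I ∈ 𝓙, NegT op ty Φ I ρ := by
      intro 𝓙
      induction 𝓙 using Finset.induction_on with
      | empty => exact fun _ => ⟨0, le_rfl, one_pos, fun I hI => absurd hI (notMem_empty I)⟩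
      | insert I0 𝓙 _ ih =>
        intro hsub
        obtain ⟨ρ, h0, h1, h2⟩ := ih ((subset_insert _ _).trans hsub)
        obtain ⟨ρ', h0', h1', h2'⟩ := hneg I0 (hsub (mem_insert_self _ _))
        refine ⟨max ρ ρ', h0.trans (le_max_left _ _), max_lt h1 h1', fun I hI => ?_⟩
        rcases mem_insert.1 hI with rfl | hI
        · exact h2'.mono (le_max_right _ _)
        · exact (h2 I hI).mono (le_max_left _ _)
    exact this 𝓘 Subset.rfl
  obtain ⟨e⟩ := ‹Nonempty M›
  have h0 : ∀ i0, ∃ L pos w D, ConfT op ty Φ 𝓘 K (fun _ => 1) i0 L pos w D := by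
    intro i0
    refine ⟨1, fun _ => e, fun _ => 1, (K i0).image (op e), le_rfl, fun _ => zero_le_one, ?_, ?_, ?_⟩
    · rw [sum_const, Nat.card_Ico]
      simp
    · intro t ht k hk
      rw [mem_Ico] at ht
      have : t = i0 := by omega
      subst this
      exact mem_image_of_mem _ hk
    · intro S _ I _
      rw [Nat.Ico_succ_singleton, sum_singleton, one_mul]
      exact ind_le_one _
  have hpow : ∀ d : ℕ, 0 ≤ ρ ^ d := fun d => pow_nonneg hρ0 d
  have hd : ∀ d : ℕ, ∀ 𝓙 : Finset (Finset ℕ), 𝓙 ⊆ 𝓘 → ∀ i0, ∃ L pos w D,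
      ConfT op ty Φ 𝓘 K (fun I => if I ∈ 𝓙 then ρ ^ d else 1) i0 L pos w D := by
    intro d 𝓙
    induction 𝓙 using Finset.induction_on with
    | empty =>
      intro _ i0
      obtain ⟨L, pos, w, D, h⟩ := h0 i0
      exact ⟨L, pos, w, D, h.mono fun I _ => by rw [if_neg (notMem_empty I)]⟩
    | insert I0 𝓙 hI0 ih =>
      intro hsub
      have h1 := ih ((subset_insert _ _).trans hsub)
      have h2 : ∀ d' : ℕ, ∀ i0, ∃ L pos w D, ConfT op ty Φ 𝓘 K
          (fun I => if I ∈ 𝓙 then ρ ^ d else if I = I0 then ρ ^ d' else 1) i0 L pos w D := by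
        intro d'
        induction d' with
        | zero =>
          intro i0
          obtain ⟨L, pos, w, D, h⟩ := h1 i0
          refine ⟨L, pos, w, D, h.mono fun I _ => ?_⟩
          rw [pow_zero, ite_self]
        | succ d' ihd =>
          intro i0
          obtain ⟨L, pos, w, D, h⟩ := conf_succ hassoc hty hshift K ρ
            (fun I => if I ∈ 𝓙 then ρ ^ d else if I = I0 then ρ ^ d' else 1) (fun I => by
              split_ifs
              · exact hpow d
              · exact hpow d'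
              · exact zero_le_one) (hsub (mem_insert_self _ _)) (hneg I0 (hsub (mem_insert_self _ _))) ihd i0
          refine ⟨L, pos, w, D, h.mono fun I _ => ?_⟩
          by_cases hI : I = I0
          · subst hI
            rw [if_pos rfl, if_neg hI0, if_neg hI0, if_pos rfl, if_pos rfl, pow_succ']
          · rw [if_neg hI, if_neg hI, if_neg hI]
      intro i0
      obtain ⟨L, pos, w, D, h⟩ := h2 d i0
      refine ⟨L, pos, w, D, h.mono fun I _ => ?_⟩
      by_cases hI : I = I0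
      · subst hI
        rw [if_pos (mem_insert_self _ _), if_neg hI0, if_pos rfl]
      · by_cases hJ : I ∈ 𝓙
        · rw [if_pos hJ, if_pos (mem_insert_of_mem hJ)]
        · rw [if_neg hJ, if_neg hI, if_neg (fun h => (mem_insert.1 h).elim hI hJ)]
  obtain ⟨d, hdd⟩ := exists_pow_lt_of_lt_one (show 0 < δ / (𝓘.card + 1) by positivity) hρ
  obtain ⟨L, pos, w, D, hC⟩ := hd d 𝓘 Subset.rfl 0
  obtain ⟨S, hS, hS2⟩ := hbase (Ico 0 (0 + L)) pos w hC.2.1
  rw [hC.2.2.1, mul_one] at hS2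
  have h3 : ∑ t ∈ Ico 0 (0 + L), w t * ind (∃ I ∈ 𝓘, HitT op ty I S (pos t) (K t)) ≤
      ∑ I ∈ 𝓘, ∑ t ∈ Ico 0 (0 + L), w t * ind (HitT op ty I S (pos t) (K t)) := by
    rw [sum_comm]
    refine sum_le_sum fun t _ => ?_
    rw [← mul_sum]
    refine mul_le_mul_of_nonneg_left ?_ (hC.2.1 t)
    by_cases h : ∃ I ∈ 𝓘, HitT op ty I S (pos t) (K t)
    · obtain ⟨I, hI, hH⟩ := h
      rw [ind_pos ⟨I, hI, hH⟩]
      have := single_le_sum (f := fun I => ind (HitT op ty I S (pos t) (K t))) (fun I _ => ind_nonneg _) hI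
      simp only [ind_pos hH] at this
      exact this
    · rw [ind_neg h]
      exact sum_nonneg fun I _ => ind_nonneg _
  have h4 : ∑ I ∈ 𝓘, ∑ t ∈ Ico 0 (0 + L), w t * ind (HitT op ty I S (pos t) (K t)) ≤ 𝓘.card * ρ ^ d := by
    rw [← nsmul_eq_mul, ← sum_const]
    refine sum_le_sum fun I hI => ?_
    have := hC.2.2.2.2 S hS I hI
    simp only [if_pos hI] at this
    exact this
  have h5 : (𝓘.card : ℝ) * ρ ^ d ≤ 𝓘.card * (δ / (𝓘.card + 1)) :=
    mul_le_mul_of_nonneg_left hdd.le (Nat.cast_nonneg _)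
  have h6 : (𝓘.card : ℝ) * (δ / (𝓘.card + 1)) < δ := by
    rw [mul_div_assoc', div_lt_iff₀ (by positivity)]
    nlinarith
  linarith

end Pool.Agent.U289.NY
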