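import Pool.Agent.U289.NY.Types

/-! Typed clusters for a semigroup of substitutions acting on arbitrary columns of typed linear forms. -/

set_option autoImplicit false

namespace Pool.Agent.U289.NY

open Finset Filter
open Pool.Agent.U289.KT (U ev_ge L Lab)
open Pool.Agent.U289.NX

/-- **typed clusters** for substitutions -/
theorem typed {α : Type} [DecidableEq α] [Nonempty α] {op : α → α → α}
    (hassoc : ∀ a b c, op (op a b) c = op a (op b c))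
    (hsep : ∀ D K : Finset α, ∃ g, ∀ k ∈ K, op g k ∉ D)
    (σ : α → ℤ × ℤ) (hσ : ∀ c, 1 ≤ (σ c).1)
    (hσc : ∀ c x f, comp (σ c) (comp (σ x) f) = comp (σ (op c x)) f)
    (f : ℕ → ℕ → ℤ × ℤ) {𝒪 : Set (ℤ × ℤ)} (h𝒪 : ∀ u ∈ 𝒪, 0 < u.1 ∧ IsCoprime u.1 u.2)
    (hO : ∀ c, ∀ u ∈ 𝒪, comp (σ c) u ∈ 𝒪) (hout : ∀ j e x, comp (σ x) (f j e) ∉ 𝒪)
    (hpos : ∀ j e x, 0 < (comp (σ x) (f j e)).1 ∧ IsCoprime (comp (σ x) (f j e)).1 (comp (σ x) (f j e)).2)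
    (hinj : ∀ j x e x' e', ∀ᶠ j' in atTop, comp (σ x') (f j' e') ≠ comp (σ x) (f j e))
    (hadm : ∀ W : Finset ℕ, ∃ K : ℕ → Finset α, ∀ pos : ℕ → α, ∃ κ : ℕ → ℕ → α,
      (∀ t, ∀ e ∈ W, κ t e ∈ K t) ∧ ∀ (Λ : Finset (ℕ × ℕ)) (p : ℕ), p.Prime → ∃ ρ : ℤ,
        ∀ᶠ j in (U : Filter ℕ), ∀ z ∈ Λ, ¬ (p : ℤ) ∣ (comp (σ (op (pos z.1) (κ z.1 z.2))) (f j z.2)).1 * ρ +
          (comp (σ (op (pos z.1) (κ z.1 z.2))) (f j z.2)).2)
    (W : ℕ → Finset ℕ) (hW : ∀ t, (W t).Nonempty) (η : ℝ) (hη : 0 < η) (Λ : ℕ → Finset α) :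
    ∃ 𝒮 : Set ℕ, (∃ᶠ t in atTop, (5 / 18 - η) * ((W t).card : ℝ) ≤ ((𝒮 ∩ (W t : Set ℕ)).ncard : ℝ)) ∧
      ∀ I : Finset ℕ, (∀ e ∈ I, e ∈ 𝒮) → ∀ (ε : ℝ), 0 < ε → ε < 1 → ∀ (k m : ℕ → ℕ), (∀ j, 1 ≤ k j) →
      (∀ j, 1 ≤ m j) →
      ∃ C : ℕ → Finset α, ∀ (V : ℕ → ℕ → α) (P : ℕ → ℕ → ℝ) (s : ℕ → ℕ), (∀ t j, 0 ≤ P t j) →
        (∀ t, ∑ j ∈ range (s t), P t j = 1) →
        ∃ (E : ℕ → Set α) (J : ℕ → ℕ), StrictMono J ∧
          (∃ᶠ t in atTop, 1 - ε ≤ ∑ j ∈ range (s t), P t j *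
            ind (∃ R ⊆ range (k j), (1 - ε) * k j ≤ R.card ∧ ∀ i ∈ R, ∀ e ∈ I, ∃ E' ⊆ C j, E'.card = m j ∧
              ∀ c ∈ E', op (V j i) c ∈ E e)) ∧
          ∀ (T : Finset α) (n : ℕ) (i : Fin n → ℕ), StrictMono i → (∀ u, n ≤ i u ∧ T ⊆ Λ (i u)) →
            GoodE 𝒪 {g : Fin n → ℤ × ℤ | ∃ (e : Fin n → ℕ) (x : Fin n → α),
              (∀ u, e u ∈ I ∧ x u ∈ T ∧ x u ∈ E (e u)) ∧ ∀ u, g u = comp (σ (x u)) (f (J (i u)) (e u))} := by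
  classical
  obtain ⟨𝒮, h1, h2⟩ := main (M := α × ℕ) (op := fun a b => (op a.1 b.1, b.2))
    (fun a b c => by simp only [hassoc]) (ty := fun a => a.2) (fun a b => rfl)
    (by
      intro D K
      obtain ⟨g, hg⟩ := hsep (D.image Prod.fst) (K.image Prod.fst)
      refine ⟨(g, 0), fun k hk h => hg k.1 (mem_image_of_mem _ hk) ?_⟩
      exact mem_image.2 ⟨_, h, rfl⟩)
    (𝒪 := 𝒪) (F := fun j x => comp (σ x.1) (f j x.2)) (fun c => σ c.1) (fun c => hσ c.1)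
    (fun c u hu => hO c.1 u hu)
    (fun c x => Filter.Eventually.of_forall fun j => by simp only [hσc])
    (by
      intro W'
      obtain ⟨K, hK⟩ := hadm W'
      refine ⟨fun t => K t ×ˢ W', fun pos => ?_⟩
      obtain ⟨κ, hκ, hadm⟩ := hK (fun t => (pos t).1)
      refine ⟨fun t e => (κ t e, e), fun t e he => ⟨mk_mem_product (hκ t e he) he, rfl⟩, ⟨?_, ?_, ?_⟩, h𝒪, ?_⟩
      · intro z
        exact Filter.Eventually.of_forall fun j => hpos j _ _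
      · intro j z z'
        exact Nat.hyperfilter_le_atTop (hinj j _ _ _ _)
      · intro Λ' p hp
        exact hadm Λ' p hp
      · intro z
        exact Filter.Eventually.of_forall fun j => hout j _ _)
    W hW η hη
  refine ⟨𝒮, h1, fun I hI ε hε hε1 k m hk hm => ?_⟩
  obtain ⟨C0, hC0⟩ := h2 I hI ε hε hε1 k m hk hm
  obtain ⟨a0⟩ := ‹Nonempty α›
  refine ⟨fun j => (C0 j).image Prod.fst, fun V P s hP hP1 => ?_⟩
  obtain ⟨S, hS, hfreq⟩ := hC0 (fun j i => (V j i, 0)) P s hP hP1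
  obtain ⟨J, hJ, hJg⟩ := extract (F := fun j (x : α × ℕ) => comp (σ x.1) (f j x.2))
    (fun j a a' => Nat.hyperfilter_le_atTop (hinj j _ _ _ _)) hS (fun n => Λ n ×ˢ I)
  refine ⟨fun e => {x | (x, e) ∈ S}, J, hJ, hfreq.mono fun t ht => ht.trans (sum_le_sum fun j _ =>
    mul_le_mul_of_nonneg_left (ind_mono ?_) (hP t j)), ?_⟩
  · rintro ⟨R, hR, hRk, hRi⟩
    refine ⟨R, hR, hRk, fun i hi e he => ?_⟩
    obtain ⟨E', hE', hEm, hES⟩ := hRi i hi e he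
    refine ⟨E'.image Prod.fst, image_subset_image hE', ?_, ?_⟩
    · rw [card_image_of_injOn, hEm]
      intro c hc c' hc' h
      exact Prod.ext h ((hES c hc).1.trans (hES c' hc').1.symm)
    · intro c hc
      obtain ⟨c', hc', rfl⟩ := mem_image.1 hc
      obtain ⟨h3, h4⟩ := hES c' hc'
      rw [h3] at h4
      exact h4
  · intro T n i hi hni l E hE
    obtain ⟨C, hC⟩ := hJg ((T ×ˢ I).filter (fun z => z ∈ S)) (fun a ha => (mem_filter.1 ha).2) n i hi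
      (fun u => ⟨(hni u).1, (filter_subset _ _).trans (product_subset_product_left (hni u).2)⟩) l E hE
    refine ⟨C, hC.mono fun N hN g hg => hN g ?_⟩
    obtain ⟨e, x, hex, hg⟩ := hg
    exact ⟨fun u => (x u, e u), fun u => mem_filter.2 ⟨mk_mem_product (hex u).2.1 (hex u).1, (hex u).2.2⟩, hg⟩

end Pool.Agent.U289.NY
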