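import Pool.Agent.U289.NY.Freq

/-! A large set of types, all of which occur in free sets near most points of every array. -/

set_option autoImplicit false

namespace Pool.Agent.U289.NY

open Finset Filter
open Pool.Agent.U289.KT (U ev_ge L Lab)
open Pool.Agent.U289.NX

/-- one finite weighted set of types -/
theorem types_one {M : Type} [DecidableEq M] [Nonempty M] {op : M → M → M}
    (hassoc : ∀ a b c, op (op a b) c = op a (op b c)) {ty : M → ℕ} (hty : ∀ a b, ty (op a b) = ty b)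
    {𝒪 : Set (ℤ × ℤ)} {F : ℕ → M → ℤ × ℤ} (σ : M → ℤ × ℤ) (hσ : ∀ c, 1 ≤ (σ c).1)
    (hO : ∀ c, ∀ u ∈ 𝒪, comp (σ c) u ∈ 𝒪)
    (hg : ∀ c x, ∀ᶠ j in (U : Filter ℕ), F j (op c x) = comp (σ c) (F j x))
    (K : ℕ → Finset M) (W : Finset ℕ)
    (hbase : ∀ pos : ℕ → M, ∃ κ : ℕ → ℕ → M, (∀ t, ∀ e ∈ W, κ t e ∈ K t ∧ ty (κ t e) = e) ∧
      LabX 𝒪 (fun j (x : ℕ × ℕ) => F j (op (pos x.1) (κ x.1 x.2))))
    (ω : ℕ → ℝ) (hω : ∀ e, 0 ≤ ω e) (hω1 : ∑ e ∈ W, ω e = 1) (η : ℝ) (hη : 0 < η) :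
    ∃ I ⊆ W, 5 / 18 - η ≤ ∑ e ∈ I, ω e ∧ Dense op ty (Free 𝒪 F) I := by
  classical
  obtain ⟨I, hI, hD⟩ := nest hassoc hty (Φ := Free 𝒪 F)
    (fun S c hS => hS.shift (hσ c) (hO c) (op c) (hg c))
    (W.powerset.filter (fun I => 5 / 18 - η ≤ ∑ e ∈ I, ω e)) K (η / (1 + η)) (by positivity) (by
      intro Js pos w hw
      obtain ⟨κ, hκ, hlab⟩ := hbase pos
      obtain ⟨J, hJ, hfree, h⟩ := free_weight hlab (Js ×ˢ W) (fun x => w x.1 * ω x.2)
        (fun x => mul_nonneg (hw _) (hω _))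
      set x : ℕ × ℕ → M := fun z => op (pos z.1) (κ z.1 z.2) with hx
      refine ⟨x '' (J : Set (ℕ × ℕ)), free_image (F := F) x hfree, ?_⟩
      have h1 : ∑ z ∈ Js ×ˢ W, w z.1 * ω z.2 = ∑ t ∈ Js, w t := by
        rw [sum_product]
        refine sum_congr rfl fun t _ => ?_
        simp only
        rw [← mul_sum, hω1, mul_one]
      have h2 : ∑ z ∈ J, w z.1 * ω z.2 = ∑ t ∈ Js, w t * ∑ e ∈ W.filter (fun e => (t, e) ∈ J), ω e := by
        have e1 : J = (Js ×ˢ W).filter (fun z => z ∈ J) := by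
          ext z
          rw [mem_filter]
          exact ⟨fun h => ⟨hJ h, h⟩, fun h => h.2⟩
        conv_lhs => rw [e1]
        rw [sum_filter, sum_product]
        refine sum_congr rfl fun t _ => ?_
        rw [mul_sum, sum_filter]
      rw [h1, h2] at h
      have h3 : ∀ t ∈ Js, w t * ∑ e ∈ W.filter (fun e => (t, e) ∈ J), ω e ≤
          (5 / 18 - η) * w t + (13 / 18 + η) * (w t * ind (∃ I ∈ W.powerset.filter
            (fun I => 5 / 18 - η ≤ ∑ e ∈ I, ω e), HitT op ty I (x '' (J : Set (ℕ × ℕ))) (pos t) (K t))) := by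
        intro t _
        have hwt := hw t
        have hle1 : ∑ e ∈ W.filter (fun e => (t, e) ∈ J), ω e ≤ 1 := by
          rw [← hω1]
          exact sum_le_sum_of_subset_of_nonneg (filter_subset _ _) fun e _ _ => hω e
        by_cases hgood : 5 / 18 - η ≤ ∑ e ∈ W.filter (fun e => (t, e) ∈ J), ω e
        · rw [ind_pos ⟨W.filter (fun e => (t, e) ∈ J), mem_filter.2 ⟨mem_powerset.2 (filter_subset _ _), hgood⟩,
            fun e he => ⟨κ t e, (hκ t e (mem_filter.1 he).1).1, (hκ t e (mem_filter.1 he).1).2,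
              (t, e), (mem_filter.1 he).2, rfl⟩⟩]
          nlinarith [mul_le_mul_of_nonneg_left hle1 hwt]
        · have h4 : w t * ∑ e ∈ W.filter (fun e => (t, e) ∈ J), ω e ≤ w t * (5 / 18 - η) :=
            mul_le_mul_of_nonneg_left (not_le.1 hgood).le hwt
          have h5 : 0 ≤ (13 / 18 + η) * (w t * ind (∃ I ∈ W.powerset.filter
            (fun I => 5 / 18 - η ≤ ∑ e ∈ I, ω e), HitT op ty I (x '' (J : Set (ℕ × ℕ))) (pos t) (K t))) :=
            mul_nonneg (by linarith) (mul_nonneg hwt (ind_nonneg _))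
          linarith
      have h4 := sum_le_sum h3
      rw [sum_add_distrib, ← mul_sum, ← mul_sum] at h4
      set A := ∑ t ∈ Js, w t with hA
      set B := ∑ t ∈ Js, w t * ind (∃ I ∈ W.powerset.filter
            (fun I => 5 / 18 - η ≤ ∑ e ∈ I, ω e), HitT op ty I (x '' (J : Set (ℕ × ℕ))) (pos t) (K t)) with hB
      have hB0 : 0 ≤ B := sum_nonneg fun t _ => mul_nonneg (hw t) (ind_nonneg _)
      rw [div_mul_eq_mul_div, div_le_iff₀ (by linarith)]
      nlinarith)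
  rw [mem_filter, mem_powerset] at hI
  exact ⟨I, hI.1, hI.2, hD⟩

/-- one infinite set of types which is large in infinitely many windows -/
theorem types_windows {𝒢 : Finset ℕ → Prop} (hanti : ∀ I I' : Finset ℕ, I' ⊆ I → 𝒢 I → 𝒢 I')
    (h𝒢 : ∀ (W : Finset ℕ) (ω : ℕ → ℝ), (∀ e, 0 ≤ ω e) → ∑ e ∈ W, ω e = 1 → ∀ η : ℝ, 0 < η →
      ∃ I ⊆ W, 5 / 18 - η ≤ ∑ e ∈ I, ω e ∧ 𝒢 I)
    (W : ℕ → Finset ℕ) (hW : ∀ t, (W t).Nonempty) (ε : ℝ) (hε : 0 < ε) :
    ∃ S : Set ℕ, (∀ I : Finset ℕ, (∀ e ∈ I, e ∈ S) → 𝒢 I) ∧ ∃ᶠ t in atTop,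
      (5 / 18 - ε) * ((W t).card : ℝ) ≤ ((S ∩ (W t : Set ℕ)).ncard : ℝ) := by
  classical
  have hWc : ∀ t, (0 : ℝ) < (W t).card := fun t => by exact_mod_cast (hW t).card_pos
  have hncard : ∀ (S : Set ℕ) (t : ℕ), (S ∩ (W t : Set ℕ)).ncard = ((W t).filter (fun a => a ∈ S)).card := by
    intro S t
    rw [← Set.ncard_coe_finset]
    congr 1
    ext a
    simp only [Set.mem_inter_iff, mem_coe, mem_filter]
    exact and_comm
  have hempty : 𝒢 ∅ := by
    obtain ⟨I, -, -, h⟩ := h𝒢 {0} (fun _ => 1) (fun _ => zero_le_one) (by simp) 1 one_pos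
    exact hanti I ∅ (empty_subset _) h
  by_contra hcon0
  have hcon : ∀ S : Set ℕ, (∀ I : Finset ℕ, (∀ e ∈ I, e ∈ S) → 𝒢 I) → ¬ ∃ᶠ t in atTop,
      (5 / 18 - ε) * ((W t).card : ℝ) ≤ (((W t).filter (fun a => a ∈ S)).card : ℝ) :=
    fun S hS h => hcon0 ⟨S, hS, h.mono fun t ht => by rw [hncard]; exact ht⟩
  -- the family of the sets of windows in which one good set is large
  obtain ⟨J, c, -, hc0, hcJ, hc1, hcF⟩ := Pool.Agent.Helper639.Tk.ptak
    (fun T : Finset ℕ => ∃ I : Finset ℕ, 𝒢 I ∧ ∀ t ∈ T,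
      (5 / 18 - ε) * ((W t).card : ℝ) ≤ (((W t).filter (fun a => a ∈ I)).card : ℝ))
    (fun T T' hTT' ⟨I, hI, h⟩ => ⟨I, hI, fun t ht => h t (hTT' ht)⟩)
    (by
      intro M hM
      by_contra hinf
      have h1 : ∀ n : ℕ, ∃ I : Finset ℕ, 𝒢 I ∧ ∀ t ∈ (range (n + 1)).filter (fun t => t ∈ M),
          (5 / 18 - ε) * ((W t).card : ℝ) ≤ (((W t).filter (fun a => a ∈ I)).card : ℝ) := fun n =>
        hM _ (fun t ht => (mem_filter.1 (mem_coe.1 ht)).2)
      choose I hI1 hI2 using h1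
      refine hcon {a | ∀ᶠ n in (U : Filter ℕ), a ∈ I n} ?_ ?_
      · intro I' hI'
        have h2 : ∀ᶠ n in (U : Filter ℕ), ∀ a ∈ I', a ∈ I n := by
          rw [Filter.eventually_all_finset]
          exact fun a ha => hI' a ha
        obtain ⟨n, hn⟩ := h2.exists
        exact hanti _ _ hn (hI1 n)
      have h2 : ∀ t ∈ M, (5 / 18 - ε) * ((W t).card : ℝ) ≤
          (((W t).filter (fun a => a ∈ {a | ∀ᶠ n in (U : Filter ℕ), a ∈ I n})).card : ℝ) := by
        intro t ht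
        have h3 : ∀ᶠ n in (U : Filter ℕ), ∀ a ∈ W t, (a ∈ I n ↔ ∀ᶠ n in (U : Filter ℕ), a ∈ I n) := by
          rw [Filter.eventually_all_finset]
          intro a _
          by_cases h : ∀ᶠ n in (U : Filter ℕ), a ∈ I n
          · filter_upwards [h] with n hn
            exact ⟨fun _ => h, fun _ => hn⟩
          · have h' := Ultrafilter.eventually_not.2 h
            filter_upwards [h'] with n hn
            exact ⟨fun h2 => absurd h2 hn, fun h2 => absurd h2 h⟩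
        obtain ⟨n, hn1, hn2⟩ := (h3.and (ev_ge t)).exists
        have h4 := hI2 n t (mem_filter.2 ⟨mem_range.2 (by omega), ht⟩)
        have h5 : (W t).filter (fun a => a ∈ I n) =
            (W t).filter (fun a => a ∈ {a | ∀ᶠ n in (U : Filter ℕ), a ∈ I n}) :=
          filter_congr fun a ha => hn1 a ha
        rw [← h5]
        exact h4
      have h3 : ∃ᶠ t in atTop, t ∈ M := Nat.frequently_atTop_iff_infinite.2 hinf
      exact h3.mono h2)
    (ε / 2) (by positivity) 0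
  -- the weight
  set w : ℕ → ℝ := fun a => ∑ t ∈ J, if a ∈ W t then c t / (W t).card else 0 with hw
  have hw0 : ∀ a, 0 ≤ w a := fun a => sum_nonneg fun t _ => by
    split_ifs
    · exact div_nonneg (hc0 t) (hWc t).le
    · exact le_rfl
  have hsum : ∀ E : Finset ℕ, ∑ a ∈ E, w a = ∑ t ∈ J, c t / (W t).card * ((E ∩ W t).card : ℝ) := by
    intro E
    simp only [hw]
    rw [sum_comm]
    refine sum_congr rfl fun t _ => ?_
    rw [← sum_filter, sum_const, nsmul_eq_mul, filter_mem_eq_inter, mul_comm]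
  have hV : ∑ t ∈ J, c t / (W t).card * ((J.biUnion W ∩ W t).card : ℝ) = 1 := by
    rw [← hc1]
    refine sum_congr rfl fun t ht => ?_
    have : J.biUnion W ∩ W t = W t := inter_eq_right.2 (subset_biUnion_of_mem W ht)
    rw [this, div_mul_cancel₀ _ (hWc t).ne']
  obtain ⟨I, hIV, hI, hIF⟩ := h𝒢 (J.biUnion W) w hw0 (by rw [hsum, hV]) (ε / 4) (by positivity)
  rw [hsum] at hI
  set T : Finset ℕ := J.filter (fun t => (5 / 18 - ε) * ((W t).card : ℝ) ≤
    (((W t).filter (fun a => a ∈ I)).card : ℝ)) with hT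
  have hTF := hcF T ⟨I, hIF, fun t ht => (mem_filter.1 ht).2⟩
  have hb : ∀ t ∈ J, c t / (W t).card * ((I ∩ W t).card : ℝ) ≤
      (if t ∈ T then c t else 0) + (5 / 18 - ε) * c t + (if t ∈ T then ε * c t else 0) := by
    intro t ht
    have e1 : I ∩ W t = (W t).filter (fun a => a ∈ I) := by
      ext a
      rw [mem_inter, mem_filter, and_comm]
    have hct := hc0 t
    by_cases htT : t ∈ T
    · rw [if_pos htT, if_pos htT]
      have h1 : ((I ∩ W t).card : ℝ) ≤ (W t).card := by exact_mod_cast card_le_card inter_subset_right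
      have h2 : c t / (W t).card * ((I ∩ W t).card : ℝ) ≤ c t := by
        rw [div_mul_eq_mul_div, div_le_iff₀ (hWc t)]
        exact mul_le_mul_of_nonneg_left h1 hct
      nlinarith
    · rw [if_neg htT, if_neg htT, zero_add, add_zero]
      have h1 : (((W t).filter (fun a => a ∈ I)).card : ℝ) < (5 / 18 - ε) * ((W t).card : ℝ) := by
        by_contra h
        exact htT (mem_filter.2 ⟨ht, not_lt.1 h⟩)
      rw [e1, div_mul_eq_mul_div, div_le_iff₀ (hWc t)]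
      nlinarith
  have hb2 := sum_le_sum hb
  have hTJ : T ⊆ J := filter_subset _ _
  have e2 : ∑ t ∈ J, (if t ∈ T then c t else 0) = ∑ t ∈ T, c t := by
    rw [← sum_filter, filter_mem_eq_inter, inter_eq_right.2 hTJ]
  have e3 : ∑ t ∈ J, (if t ∈ T then ε * c t else 0) = ε * ∑ t ∈ T, c t := by
    rw [← sum_filter, filter_mem_eq_inter, inter_eq_right.2 hTJ, mul_sum]
  rw [sum_add_distrib, sum_add_distrib, e2, e3, ← mul_sum, hc1] at hb2
  have hε1 : ε < 5 / 18 := by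
    by_contra h
    have h1 := hcon ∅ (fun I' hI' => by
      have : I' = ∅ := eq_empty_of_forall_notMem fun e he => (hI' e he).elim
      rw [this]
      exact hempty)
    apply h1
    refine Filter.Eventually.frequently (Filter.Eventually.of_forall fun t => ?_)
    have : (5 / 18 - ε) * ((W t).card : ℝ) ≤ 0 := mul_nonpos_of_nonpos_of_nonneg (by linarith) (hWc t).le
    exact this.trans (Nat.cast_nonneg _)
  nlinarith

/-- **typed clusters**: a set of types which is large in infinitely many windows, such that for each finite subset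
there are free sets with clusters of all these types near most points of every array -/
theorem main {M : Type} [DecidableEq M] [Nonempty M] {op : M → M → M}
    (hassoc : ∀ a b c, op (op a b) c = op a (op b c)) {ty : M → ℕ} (hty : ∀ a b, ty (op a b) = ty b)
    (hsep : ∀ D K : Finset M, ∃ g, ∀ k ∈ K, op g k ∉ D)
    {𝒪 : Set (ℤ × ℤ)} {F : ℕ → M → ℤ × ℤ} (σ : M → ℤ × ℤ) (hσ : ∀ c, 1 ≤ (σ c).1)
    (hO : ∀ c, ∀ u ∈ 𝒪, comp (σ c) u ∈ 𝒪)
    (hg : ∀ c x, ∀ᶠ j in (U : Filter ℕ), F j (op c x) = comp (σ c) (F j x))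
    (hbase : ∀ W : Finset ℕ, ∃ K : ℕ → Finset M, ∀ pos : ℕ → M, ∃ κ : ℕ → ℕ → M,
      (∀ t, ∀ e ∈ W, κ t e ∈ K t ∧ ty (κ t e) = e) ∧
      LabX 𝒪 (fun j (x : ℕ × ℕ) => F j (op (pos x.1) (κ x.1 x.2))))
    (W : ℕ → Finset ℕ) (hW : ∀ t, (W t).Nonempty) (η : ℝ) (hη : 0 < η) :
    ∃ 𝒮 : Set ℕ, (∃ᶠ t in atTop, (5 / 18 - η) * ((W t).card : ℝ) ≤ ((𝒮 ∩ (W t : Set ℕ)).ncard : ℝ)) ∧
      ∀ I : Finset ℕ, (∀ e ∈ I, e ∈ 𝒮) → ∀ (ε : ℝ), 0 < ε → ε < 1 → ∀ (k m : ℕ → ℕ), (∀ j, 1 ≤ k j) →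
      (∀ j, 1 ≤ m j) →
      ∃ C : ℕ → Finset M, ∀ (V : ℕ → ℕ → M) (P : ℕ → ℕ → ℝ) (s : ℕ → ℕ), (∀ t j, 0 ≤ P t j) →
        (∀ t, ∑ j ∈ range (s t), P t j = 1) →
        ∃ S, Free 𝒪 F S ∧ ∃ᶠ t in atTop, 1 - ε ≤ ∑ j ∈ range (s t), P t j *
          ind (∃ R ⊆ range (k j), (1 - ε) * k j ≤ R.card ∧ ∀ i ∈ R, ∀ e ∈ I, ∃ E ⊆ C j, E.card = m j ∧
            ∀ c ∈ E, ty c = e ∧ op (V j i) c ∈ S) := by
  obtain ⟨𝒮, h1, h2⟩ := types_windows (𝒢 := Dense op ty (Free 𝒪 F)) (fun I I' h hI => hI.anti h)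
    (fun W ω hω hω1 η hη => by
      obtain ⟨K, hK⟩ := hbase W
      exact types_one hassoc hty σ hσ hO hg K W hK ω hω hω1 η hη) W hW η hη
  exact ⟨𝒮, h2, fun I hI ε hε hε1 k m hk hm => clusters hassoc hty hsep free_lim (h1 I hI) ε hε hε1 k m hk hm⟩

end Pool.Agent.U289.NY
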